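import Mathlib

set_option autoImplicit false

namespace Pool.Agent.Helper13.A5

/-- `g : ℝ → ℝ` follows a local rule along the labelled line `ω`: for some radius `r`, what `g`
does on the tile `[m, m + 1)`, read relative to `m`, is determined by the labels
`ω (m - r), …, ω (m + r)`. -/
def LocalRule {A : Type} (ω : ℤ → A) (g : ℝ → ℝ) : Prop :=
  ∃ r : ℤ, ∀ m n : ℤ, (∀ i : ℤ, |i| ≤ r → ω (m + i) = ω (n + i)) →
    ∀ t : ℝ, 0 ≤ t → t < 1 → g (t + m) - m = g (t + n) - n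

/-- local rule of given radius -/
def LR {A : Type} (ω : ℤ → A) (r : ℤ) (g : ℝ → ℝ) : Prop :=
  ∀ m n : ℤ, (∀ i : ℤ, |i| ≤ r → ω (m + i) = ω (n + i)) →
    ∀ t : ℝ, 0 ≤ t → t < 1 → g (t + m) - m = g (t + n) - n

theorem LR.mono {A : Type} {ω : ℤ → A} {r s : ℤ} {g : ℝ → ℝ} (h : LR ω r g) (hrs : r ≤ s) :
    LR ω s g := fun m n hw t h0 h1 => h m n (fun i hi => hw i (hi.trans hrs)) t h0 h1

/-- transferred map -/
noncomputable def tr (ν : ℤ → ℤ) (g : ℝ → ℝ) (x : ℝ) : ℝ :=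
  g (x - ⌊x⌋ + ν ⌊x⌋) - ν ⌊x⌋ + ⌊x⌋

/-- the walk condition -/
def Walk {A : Type} (ω : ℤ → A) (ν : ℤ → ℤ) (R : ℤ) : Prop :=
  ∀ m i : ℤ, |i| ≤ R → ω (ν m + i) = ω (ν (m + i))

theorem tr_eq {A : Type} {ω : ℤ → A} {ν : ℤ → ℤ} {R r : ℤ} {g : ℝ → ℝ}
    (hν : Walk ω ν R) (hg : LR ω r g) (x : ℝ) (m : ℤ) (hm : |⌊x⌋ - m| + r ≤ R) :
    tr ν g x = g (x - m + ν m) - ν m + m := by
  have h1 := hg (ν ⌊x⌋) (ν m + (⌊x⌋ - m)) (by
    intro i hi
    have e1 : |i| ≤ R := by
      have := abs_nonneg (⌊x⌋ - m)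
      linarith
    have e2 : |(⌊x⌋ - m) + i| ≤ R := by
      have := abs_add_le (⌊x⌋ - m) i
      linarith
    rw [hν ⌊x⌋ i e1, add_assoc, hν m _ e2]
    have e3 : m + (⌊x⌋ - m + i) = ⌊x⌋ + i := by ring
    rw [e3]) (x - ⌊x⌋) (by linarith [Int.floor_le x]) (by linarith [Int.lt_floor_add_one x])
  push_cast at h1
  have e4 : x - (⌊x⌋ : ℝ) + ((ν m : ℝ) + ((⌊x⌋ : ℝ) - m)) = x - m + ν m := by ring
  rw [e4] at h1
  unfold tr
  linarith

/-- bounded displacement -/
def Disp (D : ℤ) (g : ℝ → ℝ) : Prop := ∀ y : ℝ, |g y - y| ≤ D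

theorem Disp.mono {D E : ℤ} {g : ℝ → ℝ} (h : Disp D g) (hDE : D ≤ E) : Disp E g := by
  intro y
  have : (D : ℝ) ≤ E := by exact_mod_cast hDE
  exact (h y).trans this

theorem exists_disp {A : Type} [Finite A] {ω : ℤ → A} {r : ℤ} {g : ℝ → ℝ}
    (hmono : Monotone g) (hg : LR ω r g) : ∃ D : ℤ, 0 ≤ D ∧ Disp D g := by
  classical
  let W : ℤ → (↥(Finset.Icc (-r) r) → A) := fun m i => ω (m + i)
  let u : ℤ → ℝ := fun m => g m - m
  have hfac : ∀ m n : ℤ, W m = W n → u m = u n := by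
    intro m n h
    have := hg m n (by
      intro i hi
      have hi' : i ∈ Finset.Icc (-r) r := by
        rw [Finset.mem_Icc]
        exact abs_le.mp hi
      exact congrFun h ⟨i, hi'⟩) 0 le_rfl zero_lt_one
    simpa [u] using this
  have hfin : (Set.range u).Finite := by
    have h1 : (Set.range W).Finite := Set.toFinite _
    have hsub : Set.range u ⊆ (fun w => u (Function.invFun W w)) '' (Set.range W) := by
      rintro _ ⟨m, rfl⟩
      refine ⟨W m, ⟨m, rfl⟩, ?_⟩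
      apply hfac
      exact Function.invFun_eq ⟨m, rfl⟩
    exact (h1.image _).subset hsub
  obtain ⟨B, hB⟩ := hfin.bddAbove
  obtain ⟨C, hC⟩ := hfin.bddBelow
  have hB' : ∀ m : ℤ, g m - m ≤ B := fun m => hB ⟨m, rfl⟩
  have hC' : ∀ m : ℤ, C ≤ g m - m := fun m => hC ⟨m, rfl⟩
  refine ⟨⌈|B| + |C| + 1⌉, ?_, ?_⟩
  · apply Int.ceil_nonneg
    positivity
  · intro y
    refine le_trans ?_ (Int.le_ceil _)
    have h1 := Int.floor_le y
    have h2 := (Int.lt_floor_add_one y).le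
    have h3 : g ⌊y⌋ ≤ g y := hmono h1
    have h4 : g y ≤ g ((⌊y⌋ + 1 : ℤ) : ℝ) := hmono (by push_cast; exact h2)
    have h5 := hC' ⌊y⌋
    have h6 := hB' (⌊y⌋ + 1)
    push_cast at h4 h6
    have h7 := neg_abs_le C
    have h8 := le_abs_self B
    have h9 := abs_nonneg C
    have h10 := abs_nonneg B
    rw [abs_le]
    constructor <;> linarith

theorem tr_disp {ν : ℤ → ℤ} {D : ℤ} {g : ℝ → ℝ} (hD : Disp D g) : Disp D (tr ν g) := by
  intro y
  have := hD (y - ⌊y⌋ + ν ⌊y⌋)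
  unfold tr
  have e : g (y - ⌊y⌋ + ν ⌊y⌋) - ν ⌊y⌋ + ⌊y⌋ - y
      = g (y - ⌊y⌋ + ν ⌊y⌋) - (y - ⌊y⌋ + ν ⌊y⌋) := by ring
  rw [e]
  exact this

theorem floor_near {x y : ℝ} {D : ℤ} (h : |y - x| ≤ D) : |⌊y⌋ - ⌊x⌋| ≤ D + 1 := by
  have h1 := Int.floor_le x
  have h2 := Int.lt_floor_add_one x
  have h3 := Int.floor_le y
  have h4 := Int.lt_floor_add_one y
  obtain ⟨h5, h6⟩ := abs_le.mp h
  have h7 : ((⌊y⌋ - ⌊x⌋ : ℤ) : ℝ) < ((D + 1 : ℤ) : ℝ) := by push_cast; linarith
  have h8 : ((-(D + 1) : ℤ) : ℝ) < ((⌊y⌋ - ⌊x⌋ : ℤ) : ℝ) := by push_cast; linarith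
  have h9 := Int.cast_lt.mp h7
  have h10 := Int.cast_lt.mp h8
  rw [abs_le]
  constructor <;> omega

theorem tr_strictMono {A : Type} {ω : ℤ → A} {ν : ℤ → ℤ} {R r D : ℤ} {g : ℝ → ℝ}
    (hν : Walk ω ν R) (hg : LR ω r g) (hmono : StrictMono g) (hD : Disp D g)
    (hR : r + (2 * D + 2) ≤ R) : StrictMono (tr ν g) := by
  have hD0 : (0 : ℝ) ≤ D := (abs_nonneg _).trans (hD 0)
  have hD0' : (0 : ℤ) ≤ D := by exact_mod_cast hD0
  intro x y hxy
  by_cases h : y - x ≤ ((2 * D : ℤ) : ℝ)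
  · have h1 : |y - x| ≤ ((2 * D : ℤ) : ℝ) := by
      rw [abs_of_pos (by linarith)]
      exact h
    have h2 := floor_near h1
    rw [tr_eq hν hg x ⌊x⌋ (by simp; omega), tr_eq hν hg y ⌊x⌋ (by omega)]
    have h3 : g (x - ⌊x⌋ + ν ⌊x⌋) < g (y - ⌊x⌋ + ν ⌊x⌋) := hmono (by linarith)
    linarith
  · have h1 := abs_le.mp (tr_disp (ν := ν) hD x)
    have h2 := abs_le.mp (tr_disp (ν := ν) hD y)
    push_cast at h
    linarith [h1.1, h1.2, h2.1, h2.2]

theorem tr_inv {A : Type} {ω : ℤ → A} {ν : ℤ → ℤ} {R r D : ℤ} {g k : ℝ → ℝ}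
    (hν : Walk ω ν R) (hg : LR ω r g) (hk : LR ω r k) (hD : Disp D g) (hkg : ∀ y, k (g y) = y)
    (hR : r + (2 * D + 2) ≤ R) (x : ℝ) : tr ν k (tr ν g x) = x := by
  have hD0 : (0 : ℝ) ≤ D := (abs_nonneg _).trans (hD 0)
  have hD0' : (0 : ℤ) ≤ D := by exact_mod_cast hD0
  have h1 : |tr ν g x - x| ≤ D := tr_disp hD x
  have h2 := floor_near h1
  rw [tr_eq hν hk (tr ν g x) ⌊x⌋ (by omega)]
  have h3 : tr ν g x - ⌊x⌋ + ν ⌊x⌋ = g (x - ⌊x⌋ + ν ⌊x⌋) := by
    unfold tr
    ring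
  rw [h3, hkg]
  ring

/-- the transferred order isomorphism -/
theorem exists_trIso {A : Type} {ω : ℤ → A} {ν : ℤ → ℤ} {R r D : ℤ} (g : ℝ ≃o ℝ)
    (hν : Walk ω ν R) (hg : LR ω r g) (hk : LR ω r g.symm) (hD : Disp D g) (hD' : Disp D g.symm)
    (hR : r + (2 * D + 2) ≤ R) :
    ∃ s : ℝ ≃o ℝ, (∀ x, s x = tr ν g x) ∧ ∀ x, s.symm x = tr ν g.symm x := by
  have hmono := tr_strictMono hν hg g.strictMono hD hR
  have h1 : ∀ x, tr ν g.symm (tr ν g x) = x :=
    tr_inv hν hg hk hD (fun y => g.symm_apply_apply y) hR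
  have h2 : ∀ x, tr ν g (tr ν g.symm x) = x :=
    tr_inv hν hk hg hD' (fun y => g.apply_symm_apply y) hR
  refine ⟨{ toFun := tr ν g, invFun := tr ν g.symm, left_inv := h1, right_inv := h2,
            map_rel_iff' := fun {a b} => hmono.le_iff_le }, fun x => rfl, fun x => rfl⟩

/-- words: the transferred word agrees with the word, up to a loss of radius depending only on
the word -/
theorem word_transfer {A : Type} {ω : ℤ → A} {n : ℕ} {r D : ℤ} (g : Fin n → ℝ ≃o ℝ)
    (hg : ∀ i, LR ω r (g i)) (hk : ∀ i, LR ω r (g i).symm)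
    (hD : ∀ i, Disp D (g i)) (hD' : ∀ i, Disp D (g i).symm) (w : FreeGroup (Fin n)) :
    ∃ K E : ℤ, Disp E (FreeGroup.lift g w) ∧ ∀ (R : ℤ) (ν : ℤ → ℤ), Walk ω ν R →
      ∀ s : Fin n → ℝ ≃o ℝ, (∀ i x, s i x = tr ν (g i) x) →
        (∀ i x, (s i).symm x = tr ν (g i).symm x) →
        ∀ (x : ℝ) (m : ℤ), |⌊x⌋ - m| + K ≤ R →
          FreeGroup.lift s w x = FreeGroup.lift g w (x - m + ν m) - ν m + m := by
  induction w using FreeGroup.induction_on with
  | C1 =>
    refine ⟨0, 0, fun y => by simp, ?_⟩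
    intro R ν hν s hs hs' x m hx
    simp
  | of i =>
    refine ⟨r, D, by simpa using hD i, ?_⟩
    intro R ν hν s hs hs' x m hx
    rw [FreeGroup.lift_apply_of, FreeGroup.lift_apply_of, hs]
    exact tr_eq hν (hg i) x m hx
  | inv_of i ih =>
    refine ⟨r, D, ?_, ?_⟩
    · have h1 := hD' i
      have e0 : (FreeGroup.lift g) (FreeGroup.of i)⁻¹ = ((g i)⁻¹ : ℝ ≃o ℝ) := by simp
      intro y
      rw [e0]
      exact h1 y
    intro R ν hν s hs hs' x m hx
    rw [map_inv, map_inv, FreeGroup.lift_apply_of, FreeGroup.lift_apply_of]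
    have e1 : ((s i)⁻¹ : ℝ ≃o ℝ) x = (s i).symm x := rfl
    have e2 : ∀ y, ((g i)⁻¹ : ℝ ≃o ℝ) y = (g i).symm y := fun y => rfl
    rw [e1, e2, hs']
    exact tr_eq hν (hk i) x m hx
  | mul a b iha ihb =>
    obtain ⟨Ka, Ea, hEa, ha⟩ := iha
    obtain ⟨Kb, Eb, hEb, hb⟩ := ihb
    refine ⟨max Kb (Ka + (Eb + 1)), Ea + Eb, ?_, ?_⟩
    · intro y
      have h1 := hEb y
      have h2 := hEa (FreeGroup.lift g b y)
      rw [map_mul]
      have e : ((FreeGroup.lift g) a * (FreeGroup.lift g) b : ℝ ≃o ℝ) y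
          = (FreeGroup.lift g) a ((FreeGroup.lift g) b y) := rfl
      rw [e]
      push_cast
      rw [abs_le] at h1 h2 ⊢
      constructor <;> linarith [h1.1, h1.2, h2.1, h2.2]
    · intro R ν hν s hs hs' x m hx
      have hx1 : |⌊x⌋ - m| + Kb ≤ R := le_trans (by gcongr; exact le_max_left _ _) hx
      have hx2 : |⌊x⌋ - m| + (Ka + (Eb + 1)) ≤ R := le_trans (by gcongr; exact le_max_right _ _) hx
      rw [map_mul, map_mul]
      have e1 : ((FreeGroup.lift s) a * (FreeGroup.lift s) b : ℝ ≃o ℝ) x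
          = (FreeGroup.lift s) a ((FreeGroup.lift s) b x) := rfl
      have e2 : ((FreeGroup.lift g) a * (FreeGroup.lift g) b : ℝ ≃o ℝ) (x - m + ν m)
          = (FreeGroup.lift g) a ((FreeGroup.lift g) b (x - m + ν m)) := rfl
      rw [e1, e2]
      have hbx := hb R ν hν s hs hs' x m hx1
      set y := (FreeGroup.lift s) b x with hy
      have h1 := hEb (x - m + ν m)
      have h2 : |y - x| ≤ Eb := by
        rw [hbx]
        have e3 : (FreeGroup.lift g) b (x - m + ν m) - ν m + m - x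
            = (FreeGroup.lift g) b (x - m + ν m) - (x - m + ν m) := by ring
        rw [e3]
        exact h1
      have h3 := floor_near h2
      have h4 : |⌊y⌋ - m| + Ka ≤ R := by
        have h5 : |⌊y⌋ - m| ≤ |⌊y⌋ - ⌊x⌋| + |⌊x⌋ - m| := by
          have := abs_add_le (⌊y⌋ - ⌊x⌋) (⌊x⌋ - m)
          simpa using this
        omega
      rw [ha R ν hν s hs hs' y m h4]
      have h6 : y - m + ν m = (FreeGroup.lift g) b (x - m + ν m) := by
        rw [hbx]
        ring
      rw [h6]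

/-- periodic walks exist -/
theorem exists_walk {A : Type} [Finite A] (ω : ℤ → A) (R : ℤ) :
    ∃ (N : ℤ) (ν : ℤ → ℤ), 0 < N ∧ (∀ m, ν (m + N) = ν m) ∧ Walk ω ν R := by
  classical
  let W : ℤ → (↥(Finset.Icc (-R) R) → A) := fun m i => ω (m + i)
  obtain ⟨p, q, hpq, hW⟩ : ∃ p q : ℤ, p < q ∧ W p = W q := by
    obtain ⟨p, q, hne, h⟩ := Finite.exists_ne_map_eq_of_infinite W
    rcases lt_or_gt_of_ne hne with h1 | h1
    · exact ⟨p, q, h1, h⟩
    · exact ⟨q, p, h1, h.symm⟩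
  have hW' : ∀ i : ℤ, |i| ≤ R → ω (p + i) = ω (q + i) := by
    intro i hi
    have hi' : i ∈ Finset.Icc (-R) R := by
      rw [Finset.mem_Icc]
      exact abs_le.mp hi
    exact congrFun hW ⟨i, hi'⟩
  have hN : 0 < q - p := by omega
  refine ⟨q - p, fun m => p + m % (q - p), hN, ?_, ?_⟩
  · intro m
    simp
  · have hstep : ∀ m i : ℤ, |i| ≤ R →
        ω (p + m % (q - p) + 1 + i) = ω (p + (m + 1) % (q - p) + i) := by
      intro m i hi
      have h0 := Int.emod_nonneg m (ne_of_gt hN)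
      have h1 := Int.emod_lt_of_pos m hN
      by_cases h : m % (q - p) + 1 < q - p
      · have h2 : (m + 1) % (q - p) = m % (q - p) + 1 := by
          rw [Int.add_emod, Int.emod_eq_of_lt (a := 1) (by omega) (by omega)]
          exact Int.emod_eq_of_lt (by omega) h
        rw [h2]
        congr 1
        ring
      · have h3 : m % (q - p) = q - p - 1 := by omega
        have h2 : (m + 1) % (q - p) = 0 := by
          have : m + 1 = (q - p) * (m / (q - p)) + (q - p) := by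
            have := Int.mul_ediv_add_emod m (q - p)
            omega
          rw [this]
          simp
        rw [h2, h3]
        have e : p + (q - p - 1) + 1 + i = q + i := by ring
        rw [e, add_zero]
        exact (hW' i hi).symm
    have hpos : ∀ (j : ℕ) (m : ℤ), (j : ℤ) ≤ R →
        ω (p + m % (q - p) + j) = ω (p + (m + j) % (q - p)) := by
      intro j
      induction j with
      | zero => intro m _; simp
      | succ j ih =>
        intro m hj
        push_cast at hj ⊢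
        have h1 := hstep m j (by rw [abs_of_nonneg (by omega)]; omega)
        have h2 := ih (m + 1) (by omega)
        have e1 : p + m % (q - p) + ((j : ℤ) + 1) = p + m % (q - p) + 1 + j := by ring
        have e2 : m + ((j : ℤ) + 1) = m + 1 + j := by ring
        rw [e1, e2, h1, h2]
    have hneg : ∀ (j : ℕ) (m : ℤ), (j : ℤ) ≤ R →
        ω (p + m % (q - p) - j) = ω (p + (m - j) % (q - p)) := by
      intro j
      induction j with
      | zero => intro m _; simp
      | succ j ih =>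
        intro m hj
        push_cast at hj ⊢
        have h1 := hstep (m - 1) (-((j : ℤ) + 1)) (by
          rw [abs_neg, abs_of_nonneg (by omega)]; omega)
        have h2 := ih (m - 1) (by omega)
        have e1 : m - 1 + 1 = m := by ring
        rw [e1] at h1
        have e2 : p + m % (q - p) - ((j : ℤ) + 1) = p + m % (q - p) + -((j : ℤ) + 1) := by ring
        have e3 : p + (m - 1) % (q - p) + 1 + -((j : ℤ) + 1) = p + (m - 1) % (q - p) - j := by ring
        have e4 : m - ((j : ℤ) + 1) = m - 1 - j := by ring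
        rw [e2, ← h1, e3, h2, e4]
    intro m i hi
    rcases le_total 0 i with h | h
    · obtain ⟨j, rfl⟩ := Int.eq_ofNat_of_zero_le h
      rw [abs_of_nonneg h] at hi
      exact hpos j m hi
    · obtain ⟨j, hj⟩ := Int.eq_ofNat_of_zero_le (neg_nonneg.mpr h)
      have hij : i = -(j : ℤ) := by omega
      subst hij
      rw [abs_neg, abs_of_nonneg (by omega)] at hi
      have := hneg j m hi
      simpa [sub_eq_add_neg] using this

theorem tr_periodic {ν : ℤ → ℤ} {N : ℤ} (hν : ∀ m, ν (m + N) = ν m) (g : ℝ → ℝ) (x : ℝ) :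
    tr ν g (x + N) = tr ν g x + N := by
  unfold tr
  rw [Int.floor_add_intCast, hν]
  push_cast
  have e : x + (N : ℝ) - ((⌊x⌋ : ℝ) + N) + ν ⌊x⌋ = x - ⌊x⌋ + ν ⌊x⌋ := by ring
  rw [e]
  ring


/-- bounded defect -/
theorem quasi {G : Type} [Group G] (σ : G →* (ℝ ≃o ℝ)) (N : ℤ) (hN : 0 < N)
    (hper : ∀ g x, σ g (x + N) = σ g x + N) (g h : G) :
    |σ (g * h) 0 - σ g 0 - σ h 0| ≤ N := by
  have hN' : (0 : ℝ) < N := by exact_mod_cast hN
  have hshift : ∀ (k : ℤ) (x : ℝ), σ g (x + k * N) = σ g x + k * N := by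
    have hnat : ∀ (k : ℕ) (x : ℝ), σ g (x + k * N) = σ g x + k * N := by
      intro k
      induction k with
      | zero => intro x; simp
      | succ k ih =>
        intro x
        push_cast
        have e : x + ((k : ℝ) + 1) * N = (x + k * N) + N := by ring
        rw [e, hper, ih]
        ring
    intro k x
    rcases le_total 0 k with hk | hk
    · obtain ⟨j, rfl⟩ := Int.eq_ofNat_of_zero_le hk
      exact_mod_cast hnat j x
    · obtain ⟨j, hj⟩ := Int.eq_ofNat_of_zero_le (neg_nonneg.mpr hk)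
      have hkj : k = -(j : ℤ) := by omega
      subst hkj
      have := hnat j (x + ((-(j : ℤ) : ℤ) : ℝ) * N)
      push_cast at this ⊢
      have e : x + -(j : ℝ) * N + j * N = x := by ring
      rw [e] at this
      linarith
  have hmul : σ (g * h) 0 = σ g (σ h 0) := by
    rw [map_mul]
    rfl
  set y := σ h 0 with hy
  set k := ⌊y / N⌋ with hk
  have h1 : (k : ℝ) * N ≤ y := by
    have := Int.floor_le (y / N)
    rwa [le_div_iff₀ hN'] at this
  have h2 : y ≤ 0 + ((k + 1 : ℤ) : ℝ) * N := by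
    have := (Int.lt_floor_add_one (y / N)).le
    rw [div_le_iff₀ hN'] at this
    push_cast
    linarith
  have h3 : σ g (0 + (k : ℝ) * N) ≤ σ g y := (σ g).monotone (by linarith)
  have h4 : σ g y ≤ σ g (0 + ((k + 1 : ℤ) : ℝ) * N) := (σ g).monotone h2
  rw [hshift] at h3 h4
  push_cast at h2 h4
  rw [hmul, abs_le]
  constructor <;> linarith

/-- an action with a bounded orbit has a global fixed point -/
theorem bounded_fix {G : Type} [Group G] (σ : G →* (ℝ ≃o ℝ)) (C : ℝ) (hC : ∀ g, |σ g 0| ≤ C) :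
    ∃ x, ∀ g, σ g x = x := by
  let S : Set ℝ := Set.range fun g => σ g 0
  have hbdd : BddAbove S := ⟨C, by rintro _ ⟨g, rfl⟩; exact (abs_le.mp (hC g)).2⟩
  have hne : S.Nonempty := ⟨_, ⟨1, rfl⟩⟩
  have hle : ∀ g, σ g (sSup S) ≤ sSup S := by
    intro g
    rw [OrderIso.map_csSup' (σ g) hne hbdd]
    apply csSup_le (hne.image _)
    rintro _ ⟨_, ⟨h, rfl⟩, rfl⟩
    apply le_csSup hbdd
    refine ⟨g * h, ?_⟩
    change (σ (g * h)) 0 = σ g (σ h 0)
    rw [map_mul]
    rfl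
  refine ⟨sSup S, fun g => le_antisymm (hle g) ?_⟩
  have h1 := (σ g).monotone (hle g⁻¹)
  have h2 : σ g (σ g⁻¹ (sSup S)) = sSup S := by
    have : σ g (σ g⁻¹ (sSup S)) = (σ g * σ g⁻¹) (sSup S) := rfl
    rw [this, ← map_mul, mul_inv_cancel, map_one]
    rfl
  rw [h2] at h1
  exact h1

/-- the periodic action -/
theorem exists_periodic {A : Type} [Finite A] (ω : ℤ → A) (G : Type) [Group G] (n : ℕ)
    (rels : Finset (FreeGroup (Fin n)))
    (e : G ≃* PresentedGroup (rels : Set (FreeGroup (Fin n)))) (ρ : G →* (ℝ ≃o ℝ))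
    (hloc : ∀ g, LocalRule ω (ρ g)) (hfix : ∀ x, ∃ g, ρ g x ≠ x) :
    ∃ (N : ℤ) (σ : G →* (ℝ ≃o ℝ)), 0 < N ∧ (∀ g x, σ g (x + N) = σ g x + N) ∧
      ∀ x, ∃ g, σ g x ≠ x := by
  classical
  let a : Fin n → G := fun i => e.symm (PresentedGroup.of i)
  let g : Fin n → ℝ ≃o ℝ := fun i => ρ (a i)
  have hsymm : ∀ k : G, ∀ x, (ρ k).symm x = ρ k⁻¹ x := by
    intro k x
    rw [map_inv]
    rfl
  have hloc' : ∀ k : G, ∃ r, LR ω r (ρ k) := hloc
  choose rad hrad using hloc'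
  have hdis : ∀ k : G, ∃ D, 0 ≤ D ∧ Disp D (ρ k) := fun k =>
    exists_disp (ρ k).monotone (hrad k)
  choose dis hdis0 hdis using hdis
  obtain ⟨r, hr⟩ : ∃ r : ℤ, ∀ i, rad (a i) ≤ r ∧ rad (a i)⁻¹ ≤ r := by
    have h1 : (Set.range fun i : Fin n => max (rad (a i)) (rad (a i)⁻¹)).Finite :=
      Set.finite_range _
    obtain ⟨r, hr⟩ := h1.bddAbove
    refine ⟨r, fun i => ?_⟩
    have := hr ⟨i, rfl⟩
    exact max_le_iff.mp this
  obtain ⟨D, hD⟩ : ∃ D : ℤ, ∀ i, dis (a i) ≤ D ∧ dis (a i)⁻¹ ≤ D := by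
    have h1 : (Set.range fun i : Fin n => max (dis (a i)) (dis (a i)⁻¹)).Finite :=
      Set.finite_range _
    obtain ⟨r, hr⟩ := h1.bddAbove
    refine ⟨r, fun i => ?_⟩
    have := hr ⟨i, rfl⟩
    exact max_le_iff.mp this
  have hg : ∀ i, LR ω r (g i) := fun i => (hrad (a i)).mono (hr i).1
  have hfun : ∀ i, (fun x => (g i).symm x) = fun x => ρ (a i)⁻¹ x := fun i => by
    funext x
    exact hsymm (a i) x
  have hk : ∀ i, LR ω r (g i).symm := by
    intro i
    have h1 : LR ω r (fun x => ρ (a i)⁻¹ x) := (hrad (a i)⁻¹).mono (hr i).2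
    rw [← hfun i] at h1
    exact h1
  have hDg : ∀ i, Disp D (g i) := fun i => (hdis (a i)).mono (hD i).1
  have hDk : ∀ i, Disp D (g i).symm := by
    intro i
    have h1 : Disp D (fun x => ρ (a i)⁻¹ x) := (hdis (a i)⁻¹).mono (hD i).2
    rw [← hfun i] at h1
    exact h1
  have hw := word_transfer g hg hk hDg hDk
  choose K E hE hK using hw
  obtain ⟨K0, hK0⟩ : ∃ K0 : ℤ, ∀ w ∈ rels, K w ≤ K0 := by
    obtain ⟨B, hB⟩ := (rels.image K).bddAbove
    exact ⟨B, fun w hw => hB (by simpa using ⟨w, hw, rfl⟩)⟩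
  set R : ℤ := max K0 (max r (r + (2 * D + 2))) with hR
  obtain ⟨N, ν, hN, hper, hν⟩ := exists_walk ω R
  have hRg : r + (2 * D + 2) ≤ R := (le_max_right _ _).trans (le_max_right _ _)
  have hRr : r ≤ R := (le_max_left _ _).trans (le_max_right _ _)
  have hs : ∀ i, ∃ s : ℝ ≃o ℝ, (∀ x, s x = tr ν (g i) x) ∧ ∀ x, s.symm x = tr ν (g i).symm x :=
    fun i => exists_trIso (g i) hν (hg i) (hk i) (hDg i) (hDk i) hRg
  choose s hs1 hs2 using hs
  have hliftg : ∀ w, FreeGroup.lift g w = ρ (e.symm (PresentedGroup.mk _ w)) := by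
    intro w
    have h1 : FreeGroup.lift g = ρ.comp (e.symm.toMonoidHom.comp (PresentedGroup.mk _)) := by
      ext i
      simp [g, a, PresentedGroup.of]
    rw [h1]
    rfl
  have hrel : ∀ w ∈ (rels : Set (FreeGroup (Fin n))), FreeGroup.lift s w = 1 := by
    intro w hw
    ext x
    rw [hK w R ν hν s hs1 hs2 x ⌊x⌋ (by
      simp only [sub_self, abs_zero, zero_add]
      exact (hK0 w hw).trans (le_max_left _ _)), hliftg,
      (PresentedGroup.mk_eq_one_iff).mpr (Subgroup.subset_normalClosure hw), map_one, map_one]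
    simp
  let σ0 : PresentedGroup (rels : Set (FreeGroup (Fin n))) →* (ℝ ≃o ℝ) :=
    PresentedGroup.toGroup hrel
  let σ : G →* (ℝ ≃o ℝ) := σ0.comp e.toMonoidHom
  have hσa : ∀ i, σ (a i) = s i := by
    intro i
    simp [σ, a, σ0]
  have hgen : Subgroup.closure (Set.range a) = ⊤ := by
    have h1 := PresentedGroup.closure_range_of (rels : Set (FreeGroup (Fin n)))
    have h2 := congrArg (Subgroup.map e.symm.toMonoidHom) h1
    rw [MonoidHom.map_closure, ← Set.range_comp] at h2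
    rw [Subgroup.map_top_of_surjective _ e.symm.surjective] at h2
    exact h2
  refine ⟨N, σ, hN, ?_, ?_⟩
  · intro k
    have hkmem : k ∈ Subgroup.closure (Set.range a) := by rw [hgen]; trivial
    induction hkmem using Subgroup.closure_induction with
    | mem x hx =>
      obtain ⟨i, rfl⟩ := hx
      intro x
      rw [hσa, hs1, hs1]
      exact tr_periodic hper _ x
    | one => intro x; simp
    | mul x y _ _ hx hy =>
      intro z
      rw [map_mul]
      change σ x (σ y (z + N)) = σ x (σ y z) + N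
      rw [hy, hx]
    | inv x _ hx =>
      intro z
      rw [map_inv]
      change (σ x).symm (z + N) = (σ x).symm z + N
      rw [OrderIso.symm_apply_eq, hx, OrderIso.apply_symm_apply]
  · intro x
    by_contra hcon
    push Not at hcon
    obtain ⟨k, hk⟩ := hfix (x - ⌊x⌋ + ν ⌊x⌋)
    apply hk
    have hkmem : k ∈ Subgroup.closure (Set.range a) := by rw [hgen]; trivial
    clear hk
    induction hkmem using Subgroup.closure_induction with
    | mem y hy =>
      obtain ⟨i, rfl⟩ := hy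
      have h1 := hcon (a i)
      rw [hσa, hs1] at h1
      unfold tr at h1
      change g i (x - ⌊x⌋ + ν ⌊x⌋) = _
      linarith
    | one => simp
    | mul y z _ _ hy hz =>
      rw [map_mul]
      change ρ y (ρ z _) = _
      rw [hz, hy]
    | inv y _ hy =>
      rw [map_inv]
      change (ρ y).symm _ = _
      rw [OrderIso.symm_apply_eq, hy]

end Pool.Agent.Helper13.A5
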